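import Pool.Agent.K9h26.AH.Fin
import Pool.Agent.K9h26.AH.FinR

set_option autoImplicit false

/-!
# Approximate computations of the matrix product with a given error degree

Definitions: `Circuit`, `Circuit.poly`, `Circuit.nonscalarCount` and `Circuit.mulCount` are in
`Pool.Agent.H522R2.Circuit`, `Vars` and `entry` in `Pool.Agent.H88R3.MM.Circ`; `Approx` (approximate
circuits) is in `Pool.Agent.K9h26.AH.QCirc`, `IsApprox` (approximate bilinear algorithms) in
`Pool.Agent.H88R3.MM.Approx`, and the error terms `err`, `errR` are in `Pool.Agent.K9h26.AH.Fin`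
and `Pool.Agent.K9h26.AH.FinR`.
-/

namespace Pool.Agent.Results.MP_e72dc0_lc.ApproximateDegree

open Polynomial Pool.Agent.H88R3.MM Pool.Agent.H522R2 Pool.Agent.K9h26.AH

/-- A circuit `D` over `F[X]` computes the product of two generic `m × m` matrices approximately
with error degree `h` (`Approx h D`) if for every entry `c` of the product it computes a polynomial
of the form `X ^ h c + X ^ (h + 1) R`. An exact circuit is the case `h = 0`, `R = 0`. A bilinear
algorithm `(U, V, W)` with coefficients in `F[X]` computes it approximately with error degree `h`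
(`IsApprox h U V W`) if the same holds for its outputs.

(1) For every `ε > 0` there is `m₀` such that for all fields `F`, all `m ≥ m₀` and all `h`:
every such circuit has at least `(2 + 1 / (2 ^ (h + 1) - 1) - ε) m ^ 2` nonscalar multiplications,
and every such bilinear algorithm has at least `(2 + 1 / (h + 1) ^ 2 - ε) m ^ 2` products.

(2) Explicit forms: for all fields, all `m`, `h` and `p`, the bound for circuits with the error term
`err p m = m ^ 2 / (p + 1) + (2 (2 p + 1) + binom (2 p + 1) p) m`, and for `2 ≤ p ≤ m` the bound for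
bilinear algorithms with the error term `errR p m = 3 m ^ 2 / p + (4 p + 2 * 4 ^ p) m`. -/
theorem result :
    (∀ ε : ℝ, 0 < ε → ∃ m₀ : ℕ, ∀ (F : Type) [Field F] (m : ℕ), m₀ ≤ m →
      (∀ (h : ℕ) (D : Circuit F[X] (Vars m)), Approx h D →
        (2 + 1 / (2 ^ (h + 1) - 1) - ε) * (m : ℝ) ^ 2 ≤ D.nonscalarCount) ∧
      (∀ (h : ℕ) (L : Type) [Fintype L] (U V W : L → Matrix (Fin m) (Fin m) F[X]),
        IsApprox h U V W →
        (2 + 1 / ((h : ℝ) + 1) ^ 2 - ε) * (m : ℝ) ^ 2 ≤ Fintype.card L)) ∧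
    (∀ (F : Type) [Field F] (m h p : ℕ), 1 ≤ m →
      (∀ D : Circuit F[X] (Vars m), Approx h D →
        (2 + 1 / (2 ^ (h + 1) - 1)) * (m : ℝ) ^ 2 ≤ D.nonscalarCount + err p m) ∧
      (2 ≤ p → p ≤ m → ∀ (L : Type) [Fintype L] (U V W : L → Matrix (Fin m) (Fin m) F[X]),
        IsApprox h U V W →
        (2 + 1 / ((h : ℝ) + 1) ^ 2) * (m : ℝ) ^ 2 ≤ Fintype.card L + errR p m)) := by
  have hc : ∀ (F : Type) [Field F] (m h p : ℕ), 1 ≤ m → ∀ D : Circuit F[X] (Vars m),
      Approx h D →
      (2 + 1 / (2 ^ (h + 1) - 1)) * (m : ℝ) ^ 2 ≤ D.nonscalarCount + err p m := by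
    classical
    intro F _ m h p hm D hD
    obtain ⟨u, v, w, H⟩ := hD.exists_alg
    have h1 := H.bound hm p
    rw [Circuit.nonscalarCount, Nat.card_eq_fintype_card]
    exact h1
  refine ⟨fun ε hε => ?_, fun F _ m h p hm => ⟨fun D hD => hc F m h p hm D hD,
    fun hp hpm L _ U V W H => (Pool.Agent.K9h26.AH.IsApprox.alg H).boundR hp hpm⟩⟩
  obtain ⟨m₁, p₁, hm₁⟩ := err_small hε
  obtain ⟨m₂, p₂, hp₂, hpm₂, hm₂⟩ := errR_small hε
  refine ⟨m₁ + m₂ + 1, fun F _ m hm => ⟨fun h D hD => ?_, fun h L _ U V W H => ?_⟩⟩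
  · have h1 := hc F m h p₁ (by omega) D hD
    have h2 := hm₁ m (by omega)
    linarith
  · have h1 := (Pool.Agent.K9h26.AH.IsApprox.alg H).boundR hp₂ (by omega)
    have h2 := hm₂ m (by omega)
    linarith

end Pool.Agent.Results.MP_e72dc0_lc.ApproximateDegree
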