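import Pool.Agent.K9h26.HG.Fin

set_option autoImplicit false

/-!
# Homogeneous circuits for matrix multiplication need `(14 - o(1)) m²` gates

Circuits (`Circuit`, `Circuit.poly`, `Circuit.nonscalarCount`, `Circuit.size`) are defined in
`Pool.Agent.H522R2.Circuit`; the variables `Vars m` and the entries `entry F m i j` of the product
of two generic `m × m` matrices in `Pool.Agent.H88R3.MM.Circ`; `Computes`, `addCount`,
`Homogeneous`, `NoConstantTerms`, `mixedCount` and `Quadratic` in `Pool.Agent.K9h26.HG.Defs`.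
-/

namespace Pool.Agent.Results.MP_e72dc0_lc.HomogeneousFourteen

open Pool.Agent.H88R3.MM Pool.Agent.H522R2 Pool.Agent.K9h26.HG

universe u

/-- Let `δ > 0` and `K` be real numbers. If `m ≥ m₀(δ, K)`, then for every field `F` and every
circuit `C` over `F` which computes the entries of the product of two generic `m × m` matrices:

1. If all nodes compute homogeneous polynomials, then there are at least `(11 - δ) m²` additions
and at least `(14 - δ) m²` gates, and the number of the additions is at least `K m²` or at least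
`(8 - δ) m² + N`, where `N` is at least the least number of products in a quadratic algorithm.

2. If every node computes a constant or a polynomial without constant term, then the same holds if
the additions with a linear and a quadratic part are counted twice; in any case there are at least
`(7 - δ) m²` additions and at least `(10 - δ) m²` gates. -/
theorem result (δ K : ℝ) (hδ : 0 < δ) : ∃ m₀ : ℕ, ∀ (F : Type u) [Field F] (m : ℕ)
    (C : Circuit F (Vars m)), m₀ ≤ m → Computes C →
    (Homogeneous C →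
      (∃ N : ℕ, Quadratic F m N ∧ N ≤ C.nonscalarCount ∧
        min (K * (m : ℝ) ^ 2) ((8 - δ) * (m : ℝ) ^ 2 + N) ≤ addCount C) ∧
      (11 - δ) * (m : ℝ) ^ 2 ≤ addCount C ∧
      (14 - δ) * (m : ℝ) ^ 2 ≤ addCount C + C.nonscalarCount ∧
      (14 - δ) * (m : ℝ) ^ 2 ≤ C.size) ∧
    (NoConstantTerms C →
      (∃ N : ℕ, Quadratic F m N ∧ N ≤ C.nonscalarCount ∧
        min (K * (m : ℝ) ^ 2) ((8 - δ) * (m : ℝ) ^ 2 + N) ≤ addCount C + mixedCount C) ∧
      (11 - δ) * (m : ℝ) ^ 2 ≤ addCount C + mixedCount C ∧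
      (14 - δ) * (m : ℝ) ^ 2 ≤ C.size + mixedCount C ∧
      (7 - δ) * (m : ℝ) ^ 2 ≤ addCount C ∧
      (10 - δ) * (m : ℝ) ^ 2 ≤ C.size) := by
  obtain ⟨m₀, hm₀⟩ := bounds δ K hδ
  refine ⟨m₀, fun F _ m C hm hC => ⟨fun hh => ?_, fun hn => ?_⟩⟩
  · obtain ⟨⟨N, h1, h2, _, h3⟩, h4, h5, _, _⟩ := hm₀ F m C hm hC hh.noConstantTerms
    have hmix : (mixedCount C : ℝ) = 0 := by exact_mod_cast hh.mixed
    rw [hmix, add_zero] at h3 h4 h5
    have h6 : (addCount C : ℝ) + C.nonscalarCount ≤ C.size := by exact_mod_cast size_ge C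
    exact ⟨⟨N, h1, h2, h3⟩, h4, h5, h5.trans h6⟩
  · obtain ⟨⟨N, h1, h2, _, h3⟩, h4, h5, h6, h7⟩ := hm₀ F m C hm hC hn
    have h8 : (addCount C : ℝ) + C.nonscalarCount ≤ C.size := by exact_mod_cast size_ge C
    exact ⟨⟨N, h1, h2, h3⟩, h4, h5.trans (by linarith), h6, h7.trans h8⟩

end Pool.Agent.Results.MP_e72dc0_lc.HomogeneousFourteen
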