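import Pool.Agent.K9h26.CN.Upper
import Pool.Agent.K9h26.CN.Avg

set_option autoImplicit false

/-!
# Fast matrix multiplication needs about `m²` gates with nearly `m²` cancellations each

Circuits (`Circuit`, `Circuit.poly`, `Circuit.size`) are defined in `Pool.Agent.H522R2.Circuit`;
the variables `Vars m` and the entries `entry F m i j` of the product of two generic `m × m`
matrices in `Pool.Agent.H88R3.MM.Circ`; `Computes`, `Cancels` and `mon` in
`Pool.Agent.K9h26.CN.Defs`; `crossPairs` and `heavyPairs` in `Pool.Agent.K9h26.CN.Pairs`.
-/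

namespace Pool.Agent.Results.MP_e72dc0_lc.ManyCancellations

open Pool.Agent.H88R3.MM Pool.Agent.H522R2 Pool.Agent.K9h26.CN

/-- **The number of the gates with cancellations in a fast circuit for the matrix product.**
We say that a pair `(k, k')` of different inner indices is cancelled at a gate if a monomial
`a i k * b k' j` is cancelled there, for some `i, j`.

Lower bound. Let `C` be an arithmetic circuit over a field `F` which computes the product of two
generic `m × m` matrices, of size `S`. If `4 q S ≤ m³` and `16 q³ t S³ ≤ m⁸`, then at least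
`(1 - 2 / q) m²` gates cancel more than `t` pairs each. In particular (`t = 0`) at least
`(1 - 2 / q) m²` gates cancel something if `4 q S ≤ m³`, and in circuits of size `m ^ (2 + ε)` at
least `(1 - o(1)) m²` gates cancel `m ^ (2 - 3 ε - o(1))` pairs each.

Upper bound. Over an ordered field, `m²` gates with cancellations suffice: from `C` one gets a
circuit of size at most `6 S + 2 m²` which computes the product and in which all cancellations
happen at `m²` nodes. -/
theorem result :
    (∀ (F : Type) [Field F] (m : ℕ) (C : Circuit F (Vars m)), Computes C →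
      ∀ q t : ℕ, 4 * q * C.size ≤ m ^ 3 → 16 * q ^ 3 * t * C.size ^ 3 ≤ m ^ 8 →
        q * m ^ 2 ≤ q * heavyPairs C t + 2 * m ^ 2) ∧
    (∀ (K : Type) [Field K] [LinearOrder K] [IsStrictOrderedRing K] (m : ℕ)
      (C : Circuit K (Vars m)), Computes C →
      ∃ (E : Circuit K (Vars m)) (B : Finset (Fin E.nodes)), Computes E ∧ B.card ≤ m ^ 2 ∧
        (∀ v, v ∉ B → ∀ d, ¬ Cancels E v d) ∧ E.size ≤ 6 * C.size + 2 * m ^ 2) :=
  ⟨fun _ _ _ _ hC q t => heavyPairs_bound hC q t, fun _ _ _ _ _ C hC => sharp C hC⟩

end Pool.Agent.Results.MP_e72dc0_lc.ManyCancellations
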