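import Pool.Agent.K9h26.NL.Fin

set_option autoImplicit false

/-!
# A linear number of products gives nearly linear size

Definitions: `Circuit`, `Circuit.poly`, `Circuit.nonscalarCount` and `Circuit.size` are in
`Pool.Agent.H522R2.Circuit`; `ComputesMM`, `sizeMM` (this is `S_F(MM_m)`) and `trank` in
`Pool.Agent.W956.KF.Defs`; `prodMM`, `OftenLE`, `PolylogLE` and `StretchedLE` in
`Pool.Agent.K9h26.NL.Defs`.
-/

namespace Pool.Agent.Results.MP_e72dc0_lc.NearLinear

open Pool.Agent.H522R2 Pool.Agent.W956.KF Pool.Agent.N590.MS Pool.Agent.K9h26.NL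

/-- **The total size of circuits for the matrix product in terms of the number of products.**
Let `F` be any field, `S m = S_F(MM_m)` the least number of gates (`sizeMM F m`), `N m` the least
number of nonscalar multiplications (`prodMM F m`) of a circuit for the product of two generic
`m × m` matrices, and `R m ≤ 2 N m` the rank of the tensor (`trank F m m m`). For `1 ≤ a ≤ b`,

`S (a b) / (a b) ^ 2 ≤ (R a / a ^ 2) * (S b / b ^ 2 + 14 * S (a ^ 2) / a ^ 4)`.

Hence for every `τ ≥ 2`: if `N a ≤ C a ^ τ` holds for at least one `a` in every interval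
`[x, x ^ κ]`, `x` large, then `S m ≤ D m ^ τ (log m) ^ γ` for all `m ≥ 2`. For `τ = 2`: if a
linear number of products suffices (in terms of `n = m ^ 2`), then `S_F(MM)` is nearly linear,
`S ≤ D' n (log n) ^ γ`. Moreover, for every `ε > 0`, there is a bound
`N m ≤ m ^ τ exp (O ((log m) ^ ε))` if and only if there is such a bound for `S m`. -/
theorem result (F : Type) [Field F] :
    (∀ a b : ℕ, 1 ≤ a → a ≤ b →
      a ^ 4 * sizeMM F (a * b) ≤
        trank F a a a * (a ^ 4 * sizeMM F b + 14 * b ^ 2 * sizeMM F (a ^ 2))) ∧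
    ∀ τ : ℝ, 2 ≤ τ →
      (OftenLE (prodMM F) τ → PolylogLE (sizeMM F) τ) ∧
      ∀ ε : ℝ, 0 < ε → (StretchedLE (prodMM F) τ ε ↔ StretchedLE (sizeMM F) τ ε) :=
  ⟨fun a b ha hab => sizeMM_step F a b ha hab, fun τ hτ =>
    transfer 2 1 (fun m _ => trank_le_prodMM F m)
      (fun m _ => by simpa using prodMM_le_sizeMM F m) τ hτ⟩

end Pool.Agent.Results.MP_e72dc0_lc.NearLinear
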